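import Pool.Agent.H419R2.S2

/-!
Class number one for the discriminants `m² ± 4r`, `r ∣ m`, `r > 1` odd (Mollin and Williams):
for `m > 35` the class number of the quadratic field of squarefree discriminant `m² ± 4r`
is larger than one, for both signs.
-/

namespace Pool.Agent.Results.MP_b2dd35_nt.MollinWilliams

/-- For all integers `m > 35` and odd `r > 1` with `r ∣ m`, and for both choices of the sign, if
`Δ = m² ± 4r` is squarefree and `Δ ≡ 1 mod 4`, then the quadratic number field generated by a
square root of `Δ` has class number larger than one. -/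
theorem result (m r : ℤ) (hm : 35 < m) (hr : 1 < r) (hodd : Odd r) (hdvd : r ∣ m)
    (Δ : ℤ) (hΔ : Δ = m ^ 2 + 4 * r ∨ Δ = m ^ 2 - 4 * r) (hsf : Squarefree Δ)
    (hmod : Δ % 4 = 1) (K : Type*) [Field K] [NumberField K]
    (hK : Module.finrank ℚ K = 2) (x : K) (hx : x ^ 2 = (Δ : K)) :
    1 < NumberField.classNumber K :=
  H419R2.main hm hr hodd hdvd hΔ hsf hmod hK hx

end Pool.Agent.Results.MP_b2dd35_nt.MollinWilliams
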